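import Pool.Agent.H174.GM.Final

/-!
# MP_b6786a_co: left Gog and left GOGAm trapezoids are equinumerous

The triangles, the Schutzenberger involution and the trapezoids are defined in the library file
`Pool.Graph.R_pool_sql_team_seeded_620a6dc7.R103.GogDefs` (namespace `Pool.Agent.R103.Gog`).
-/

set_option autoImplicit false

namespace Pool.Agent.Results.MP_b6786a_co.LeftGogEqLeftGogam

open Pool.Agent.R103.Gog

/-- For all `1 ≤ k ≤ n` the numbers of `(n, k)` left Gog trapezoids and of `(n, k)` left GOGAm
trapezoids are finite and equal. -/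
theorem result (n k : ℕ) (hk : 1 ≤ k) (hkn : k ≤ n) :
    (leftTrapezoids n k (IsGog n)).Finite ∧ (leftTrapezoids n k (IsGOGAm n)).Finite ∧
      (leftTrapezoids n k (IsGog n)).ncard = (leftTrapezoids n k (IsGOGAm n)).ncard :=
  Pool.Agent.H174.GM.left_eq n k hk hkn

end Pool.Agent.Results.MP_b6786a_co.LeftGogEqLeftGogam
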